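import Mathlib
import Pool.Agent.H15.Asc.Cycle

set_option autoImplicit false

/-!
Parity words of the elements of a cycle.
-/

namespace Pool.Agent.H15.Cx

open Finset
open Pool.Agent.H15.Asc (T T_even T_odd par IsCycle)

/-- the first `L` parities of the orbit of `x` -/
def word (f : ℤ → ℤ) (L : ℕ) (x : ℤ) : List ℤ := (List.range L).map fun i => f^[i] x % 2

/-- the parity words of length `L` occurring in `Z` -/
def words (f : ℤ → ℤ) (Z : Finset ℤ) (L : ℕ) : Finset (List ℤ) := Z.image (word f L)

theorem word_succ (f : ℤ → ℤ) (L : ℕ) (x : ℤ) : word f (L + 1) x = (x % 2) :: word f L (f x) := by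
  unfold word
  rw [List.range_succ_eq_map, List.map_cons, List.map_map]
  rfl

theorem dvd_of_word {q d : ℤ} (hq : q % 2 = 1) (hd : d % 2 = 1) (L : ℕ) :
    ∀ x y : ℤ, word (T q d) L x = word (T q d) L y → (2 : ℤ) ^ L ∣ x - y := by
  induction L with
  | zero => intro x y _; simp
  | succ L ih =>
    intro x y h
    rw [word_succ, word_succ, List.cons.injEq] at h
    obtain ⟨h1, h2⟩ := h
    have h3 := ih _ _ h2
    obtain ⟨c, hc⟩ := h3
    rcases par x with h4 | h4
    · have h5 := T_even (q := q) (d := d) h4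
      have h6 := T_even (q := q) (d := d) (x := y) (by omega)
      refine ⟨c, ?_⟩
      rw [pow_succ]
      calc x - y = 2 * (T q d x - T q d y) := by rw [mul_sub, h5, h6]
        _ = _ := by rw [hc]; ring
    · have h5 := T_odd hq hd h4
      have h6 := T_odd hq hd (x := y) (by omega)
      have h7 : (2 : ℤ) ^ (L + 1) ∣ q * (x - y) := by
        refine ⟨c, ?_⟩
        rw [pow_succ]
        calc q * (x - y) = 2 * (T q d x - T q d y) := by rw [mul_sub, mul_sub, h5, h6]; ring
          _ = _ := by rw [hc]; ring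
      have hcop : IsCoprime ((2 : ℤ) ^ (L + 1)) q := by
        apply IsCoprime.pow_left
        refine ⟨-(q / 2), 1, ?_⟩
        omega
      exact hcop.dvd_of_dvd_mul_left h7

/-- large words separate the elements -/
theorem card_words {q d : ℤ} (hq : q % 2 = 1) (hd : d % 2 = 1) {Z : Finset ℤ} {L : ℕ}
    (hL : ∀ x ∈ Z, 2 * |x| < 2 ^ L) : (words (T q d) Z L).card = Z.card := by
  unfold words
  apply Finset.card_image_of_injOn
  intro x hx y hy hxy
  have h1 := dvd_of_word hq hd L x y hxy
  by_contra hne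
  have h2 : x - y ≠ 0 := sub_ne_zero.2 hne
  have h3 : (2 : ℤ) ^ L ≤ |x - y| := Int.le_of_dvd (abs_pos.2 h2) ((dvd_abs _ _).2 h1)
  have h4 := abs_sub x y
  have h5 := hL x hx
  have h6 := hL y hy
  omega

/-- there are at most `|Z|` words -/
theorem card_words_le (f : ℤ → ℤ) (Z : Finset ℤ) (L : ℕ) : (words f Z L).card ≤ Z.card :=
  Finset.card_image_le

end Pool.Agent.H15.Cx
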