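import Mathlib
import Pool.Agent.H15.Cx.Words
import Pool.Agent.H15.Cyc.Bridge

set_option autoImplicit false

/-!
Explicit bounds for the least element of an unknown cycle of the `3x+1` map.
-/

namespace Pool.Agent.H15.Cx

open Finset
open Pool.Agent.H15.Cyc (Orb FS fc od Ev vals lev_a lev_g)

theorem rpow_le {x y : ℝ} {a b : ℕ} (hb : 0 < b) (hx : x ≤ (a : ℝ) / b) (hy : 0 ≤ y)
    (h : (2 : ℝ) ^ a ≤ y ^ b) : (2 : ℝ) ^ x ≤ y := by
  have hb' : (b : ℝ) ≠ 0 := by positivity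
  have h1 : (2 : ℝ) ^ x ≤ 2 ^ ((a : ℝ) / b) := Real.rpow_le_rpow_of_exponent_le (by norm_num) hx
  refine h1.trans ?_
  have h2 : ((2 : ℝ) ^ ((a : ℝ) / b)) ^ b = 2 ^ a := by
    rw [← Real.rpow_natCast, ← Real.rpow_mul (by norm_num), div_mul_cancel₀ _ hb', Real.rpow_natCast]
  exact le_of_pow_le_pow_left₀ hb.ne' hy (by rw [h2]; exact h)

theorem quad_lt (r : ℕ) (hr : 51 ≤ r) :
    18.2 * (10 ^ 4 * (2 : ℝ) ^ ((181 + 40 * (r : ℝ)) / 100)) ≤ ((204800 : ℝ) / 117649) ^ (r - 1) := by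
  induction r, hr using Nat.le_induction with
  | base =>
    have h1 : (2 : ℝ) ^ ((181 + 40 * ((51 : ℕ) : ℝ)) / 100) ≤ 5980000 :=
      rpow_le (a := 89) (b := 4) (by norm_num) (by norm_num) (by norm_num) (by norm_num)
    have h2 : (18.2 : ℝ) * (10 ^ 4 * 5980000) ≤ (204800 / 117649) ^ (51 - 1) := by norm_num
    linarith
  | succ r hr ih =>
    obtain ⟨s, rfl⟩ : ∃ s, r = s + 1 := ⟨r - 1, by omega⟩
    rw [Nat.add_sub_cancel] at ih ⊢
    rw [pow_succ ((204800 : ℝ) / 117649) s]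
    push_cast at ih ⊢
    have h1 : (2 : ℝ) ^ ((181 + 40 * ((s : ℝ) + 1 + 1)) / 100) =
        2 ^ ((181 + 40 * ((s : ℝ) + 1)) / 100) * 2 ^ (0.4 : ℝ) := by
      rw [← Real.rpow_add (by norm_num)]; congr 1; ring
    have h4 : (2 : ℝ) ^ (0.4 : ℝ) ≤ 1.5 :=
      rpow_le (a := 2) (b := 5) (by norm_num) (by norm_num) (by norm_num) (by norm_num)
    rw [h1]
    have h2 : (0 : ℝ) ≤ (204800 / 117649) ^ s := by positivity
    have h3 : (204800 / 117649 : ℝ) ^ s * 1.7 ≤ (204800 / 117649) ^ s * (204800 / 117649) :=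
      mul_le_mul_of_nonneg_left (by norm_num) h2
    have h5 : (0 : ℝ) ≤ 2 ^ ((181 + 40 * ((s : ℝ) + 1)) / 100) := by positivity
    have h6 : (2 : ℝ) ^ ((181 + 40 * ((s : ℝ) + 1)) / 100) * 2 ^ (0.4 : ℝ) ≤
        2 ^ ((181 + 40 * ((s : ℝ) + 1)) / 100) * 1.5 := mul_le_mul_of_nonneg_left h4 h5
    linarith

/-- the least element is small, so words of a short length separate the elements -/
theorem sep_length (p k : ℕ) (n0 : ℝ) (hp : 1 ≤ p) (hn0 : 2900000000 ≤ n0)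
    (hΛ : |(p : ℝ) * Real.log 2 - k * Real.log 3| ≤ p / (3 * n0 - 1)) :
    ∃ L : ℕ, 2 * (10 ^ 50 * n0) < 2 ^ L ∧ 10 ^ 4 * (2 : ℝ) ^ ((L : ℝ) / 100) < p := by
  have hpR : (1 : ℝ) ≤ p := by exact_mod_cast hp
  have hn3 : 0 < 3 * n0 - 1 := by linarith
  rcases Nat.lt_or_ge p 50508 with h1 | h1
  · exfalso
    have h2 := Pool.Agent.H15.Lin.Form.cf2 (p : ℤ) (k : ℤ) (by omega) (by omega)
    push_cast at h2
    have h3 := h2.trans hΛ
    rw [le_div_iff₀ hn3] at h3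
    have h4 : (p : ℝ) < 50508 := by exact_mod_cast h1
    nlinarith
  rcases Nat.lt_or_ge p 17087915 with h2 | h2
  · have h3 := lev_a (p : ℤ) (k : ℤ) (by omega) (by omega)
    push_cast at h3
    have h4 := h3.trans hΛ
    rw [le_div_iff₀ hn3] at h4
    have h5 : (p : ℝ) < 17087915 := by exact_mod_cast h2
    have h224 : (2 : ℝ) ^ (((224 : ℕ) : ℝ) / 100) ≤ 5 :=
      rpow_le (a := 56) (b := 25) (by norm_num) (by norm_num) (by norm_num) (by norm_num)
    have h1R : (50508 : ℝ) ≤ p := by exact_mod_cast h1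
    refine ⟨224, ?_, by linarith⟩
    have h6 : n0 ≤ 110000000000000 := by linarith
    calc 2 * (10 ^ 50 * n0) ≤ 2 * (10 ^ 50 * 110000000000000) := by linarith
      _ < _ := by norm_num
  rcases Nat.lt_or_ge p 103768467013 with h3 | h3
  · have h4 := lev_g (p : ℤ) (k : ℤ) (by omega) (by omega)
    push_cast at h4
    have h5 := h4.trans hΛ
    rw [le_div_iff₀ hn3] at h5
    have h6 : (p : ℝ) < 103768467013 := by exact_mod_cast h3
    have h240 : (2 : ℝ) ^ (((240 : ℕ) : ℝ) / 100) ≤ 8 :=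
      rpow_le (a := 3) (b := 1) (by norm_num) (by norm_num) (by norm_num) (by norm_num)
    have h2R : (17087915 : ℝ) ≤ p := by exact_mod_cast h2
    refine ⟨240, ?_, by linarith⟩
    have h7 : n0 ≤ 3500000000000000000000 := by linarith
    calc 2 * (10 ^ 50 * n0) ≤ 2 * (10 ^ 50 * 3500000000000000000000) := by linarith
      _ < _ := by norm_num
  · have h4 : (103768467013 : ℝ) ≤ p := by exact_mod_cast h3
    obtain ⟨⟨v1, v2⟩, ⟨v3, v4⟩⟩ := vals
    have hsm : |(p : ℝ) * Real.log 2 - k * Real.log 3| ≤ p / 8000000000 :=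
      hΛ.trans (div_le_div_of_nonneg_left (by linarith) (by norm_num) (by linarith))
    obtain ⟨hs1, hs2⟩ := abs_le.1 hsm
    have hk0 : (0 : ℝ) ≤ k := Nat.cast_nonneg _
    have w1 : (p : ℝ) * Real.log 2 ≤ p * 0.6931472 := mul_le_mul_of_nonneg_left (by linarith) (by linarith)
    have w2 : (p : ℝ) * 0.6931471 ≤ p * Real.log 2 := mul_le_mul_of_nonneg_left (by linarith) (by linarith)
    have w3 : (k : ℝ) * Real.log 3 ≤ k * 1.0986123 := mul_le_mul_of_nonneg_left (by linarith) hk0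
    have w4 : (k : ℝ) * 1.0986122 ≤ k * Real.log 3 := mul_le_mul_of_nonneg_left (by linarith) hk0
    have ho1 : (p : ℝ) < 2 * k := by linarith
    have ho2 : 3 * (k : ℝ) < 2 * p := by linarith
    have ho1' : (p : ℤ) < 2 * (k : ℤ) := by exact_mod_cast ho1
    have ho2' : 3 * (k : ℤ) < 2 * (p : ℤ) := by exact_mod_cast ho2
    have hpk1 : 49 * ((p : ℝ) - k) ≤ 18.2 * p := by linarith
    have hpk2 : 18 * (p : ℝ) ≤ 49 * ((p : ℝ) - k) := by linarith
    have hc1 : (1 : ℝ) < 204800 / 117649 := by norm_num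
    have hex : ∃ r : ℕ, 49 * ((p : ℝ) - k) ≤ (204800 / 117649) ^ r := by
      obtain ⟨r, hr⟩ := pow_unbounded_of_one_lt (49 * ((p : ℝ) - k)) hc1
      exact ⟨r, hr.le⟩
    classical
    obtain ⟨r, hr1, hr2⟩ : ∃ r : ℕ, 49 * ((p : ℝ) - k) ≤ (204800 / 117649) ^ r ∧
        ∀ s < r, ¬ 49 * ((p : ℝ) - k) ≤ (204800 / 117649) ^ s :=
      ⟨Nat.find hex, Nat.find_spec hex, fun s hs => Nat.find_min hex hs⟩
    have hr50 : 51 ≤ r := by
      by_contra hcon
      have h5 : ((204800 : ℝ) / 117649) ^ r ≤ (204800 / 117649) ^ 50 :=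
        pow_le_pow_right₀ hc1.le (by omega)
      have h6 : ((204800 : ℝ) / 117649) ^ 50 ≤ 1200000000000 := by norm_num
      linarith
    have hlow := Pool.Agent.H15.Lin.Form.lower r (p : ℤ) (k : ℤ) ho1' ho2' (by
      push_cast; exact hr1)
    push_cast at hlow
    refine ⟨181 + 40 * r, ?_, ?_⟩
    · have h5 : (p : ℝ) ≤ 2 ^ r := by
        have h6 : ((204800 : ℝ) / 117649) ^ r ≤ 2 ^ r := pow_le_pow_left₀ (by norm_num) (by norm_num) r
        linarith
      have h6 : 3 * n0 - 1 ≤ 2 ^ 13 * 2 ^ (39 * r) * p := by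
        have h7 : 2 ^ 13 * 2 ^ (39 * r) * |(p : ℝ) * Real.log 2 - k * Real.log 3| ≤
            2 ^ 13 * 2 ^ (39 * r) * (p / (3 * n0 - 1)) :=
          mul_le_mul_of_nonneg_left hΛ (by positivity)
        have h8 := hlow.trans h7
        rw [← mul_div_assoc, le_div_iff₀ hn3] at h8
        linarith
      have h7 : 2 ^ 13 * 2 ^ (39 * r) * (p : ℝ) ≤ 2 ^ 13 * 2 ^ (39 * r) * 2 ^ r :=
        mul_le_mul_of_nonneg_left h5 (by positivity)
      have h8 : (2 : ℝ) ^ 13 * 2 ^ (39 * r) * 2 ^ r = 2 ^ (13 + 40 * r) := by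
        rw [← pow_add, ← pow_add]; congr 1; ring
      have h9 : n0 ≤ 2 ^ (13 + 40 * r) := by linarith
      have h10 : (2 : ℝ) ^ (181 + 40 * r) = 2 ^ 168 * 2 ^ (13 + 40 * r) := by
        rw [← pow_add]; congr 1; ring
      rw [h10]
      have h11 : (0 : ℝ) < 2 ^ (13 + 40 * r) := by positivity
      calc 2 * (10 ^ 50 * n0) ≤ 2 * (10 ^ 50 * 2 ^ (13 + 40 * r)) := by linarith
        _ = (2 * 10 ^ 50) * 2 ^ (13 + 40 * r) := by ring
        _ < _ := mul_lt_mul_of_pos_right (by norm_num) h11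
    · have h5 := quad_lt r hr50
      have h6 : ((204800 : ℝ) / 117649) ^ (r - 1) < 18.2 * p :=
        (not_le.1 (hr2 (r - 1) (by omega))).trans_le hpk1
      push_cast
      linarith

/-- the linear form of a cycle with large elements -/
theorem cycle_form {Z : Finset ℤ} (hZ : Pool.Agent.H15.Cyc.IsCycle Z)
    (hbig : ∀ x ∈ Z, 2900000000 ≤ |x|) : ∃ x1 ∈ Z, ∃ k : ℕ,
      |(Z.card : ℝ) * Real.log 2 - k * Real.log 3| ≤ Z.card / (3 * |(x1 : ℝ)| - 1) := by
  obtain ⟨x1, hx1, hmin⟩ := Finset.exists_min_image Z (fun x => |x|) hZ.nonempty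
  obtain ⟨x0, hx0, h01⟩ := hZ.pred hx1
  have hb1 := hbig x1 hx1
  have hT1 := hmin _ (hZ.closed hx1 1)
  have hT2 := hmin _ (hZ.closed hx1 2)
  have hm0 := hmin _ hx0
  have e1 : Pool.Agent.H15.Cyc.T^[1] x1 = Pool.Agent.H15.Cyc.T x1 := rfl
  have e2 : Pool.Agent.H15.Cyc.T^[2] x1 =
    Pool.Agent.H15.Cyc.T (Pool.Agent.H15.Cyc.T x1) := rfl
  rw [e1] at hT1
  rw [e2] at hT2
  -- the least element is odd
  have hodd : x1 % 2 = 1 := by
    rcases Pool.Agent.H15.Cyc.par x1 with h | h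
    · have := Pool.Agent.H15.Cyc.T_even h
      rcases abs_cases x1 with ⟨h1, h2⟩ | ⟨h1, h2⟩ <;>
        rcases abs_cases (Pool.Agent.H15.Cyc.T x1) with ⟨h3, h4⟩ | ⟨h3, h4⟩ <;> omega
    · exact h
  have h4 : x1 % 4 = 3 := by
    by_contra h
    have h5 := Pool.Agent.H15.Cyc.T_odd hodd
    have h6 : Pool.Agent.H15.Cyc.T x1 % 2 = 0 := by omega
    have h7 := Pool.Agent.H15.Cyc.T_even h6
    rcases abs_cases x1 with ⟨h1, h2⟩ | ⟨h1, h2⟩ <;>
      rcases abs_cases (Pool.Agent.H15.Cyc.T (Pool.Agent.H15.Cyc.T x1)) with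
        ⟨h3, h4⟩ | ⟨h3, h4⟩ <;> omega
  have hev : x0 % 2 = 0 := by
    rcases Pool.Agent.H15.Cyc.par x0 with h | h
    · exact h
    · have h5 := Pool.Agent.H15.Cyc.T_odd h
      rw [h01] at h5
      rcases abs_cases x1 with ⟨h1, h2⟩ | ⟨h1, h2⟩ <;>
        rcases abs_cases x0 with ⟨h3, h4⟩ | ⟨h3, h4⟩ <;> omega
  -- the orbit
  set a : ℕ → ℤ := fun i => Pool.Agent.H15.Cyc.T^[i] x0 with ha
  obtain ⟨q, hq1, hq2⟩ := hZ.per hx0
  have hperq : Function.IsPeriodicPt Pool.Agent.H15.Cyc.T q x0 := hq2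
  set p := Function.minimalPeriod Pool.Agent.H15.Cyc.T x0 with hp
  have hp1 : 1 ≤ p := hperq.minimalPeriod_pos hq1
  have hpp : Pool.Agent.H15.Cyc.T^[p] x0 = x0 :=
    Function.isPeriodicPt_minimalPeriod Pool.Agent.H15.Cyc.T x0
  have hmem : ∀ i, a i ∈ Z := fun i => hZ.closed hx0 i
  have horb : Orb a p 2900000000 :=
    { step := fun i => Function.iterate_succ_apply' Pool.Agent.H15.Cyc.T i x0
      per := fun i => by
        change Pool.Agent.H15.Cyc.T^[i + p] x0 = Pool.Agent.H15.Cyc.T^[i] x0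
        rw [Function.iterate_add_apply, hpp]
      pos := hp1
      big := fun i => by
        have := hbig _ (hmem i)
        exact_mod_cast this }
  have ha1 : a 1 = x1 := h01
  have ha0 : a 0 = x0 := rfl
  have hcard : Z.card = p := by
    have h5 : Pool.Agent.H15.Asc.IsCycle Pool.Agent.H15.Cyc.T Z := hZ
    exact h5.card_eq hx0
  refine ⟨x1, hx1, od a p, ?_⟩
  rw [hcard]
  refine (Pool.Agent.H15.Cyc.form horb (by norm_num)
    ⟨by rw [ha0]; exact hev, by rw [ha1]; exact h4⟩).trans ?_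
  have hbR : (2900000000 : ℝ) ≤ |(x1 : ℝ)| := by exact_mod_cast hb1
  have hpos : 0 < 3 * |(x1 : ℝ)| - 1 := by linarith
  have h5 : ∀ i ∈ range p, fc (a (i + 1)) ≤ 1 / (3 * |(x1 : ℝ)| - 1) := by
    intro i _
    have h6 : |(x1 : ℝ)| ≤ |(a (i + 1) : ℝ)| := by exact_mod_cast hmin _ (hmem (i + 1))
    unfold fc
    split_ifs
    · exact one_div_le_one_div_of_le hpos (by linarith)
    · positivity
  have h6 := Finset.sum_le_sum h5
  simp only [Finset.sum_const, Finset.card_range, nsmul_eq_mul] at h6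
  unfold FS
  refine h6.trans (le_of_eq ?_)
  ring

/-- **Classification of the cycles of low complexity and moderate oscillation.** -/
theorem known {Z : Finset ℤ} (hZ : Pool.Agent.H15.Cyc.IsCycle Z)
    (hosc : ∀ x ∈ Z, ∀ y ∈ Z, |x| ≤ 10 ^ 50 * |y|)
    (hw : ∀ L : ℕ, ((words (Pool.Agent.H15.Asc.T 3 1) Z L).card : ℝ) ≤
      10 ^ 4 * (2 : ℝ) ^ ((L : ℝ) / 100)) :
    ∃ x ∈ Z, x ∈ Pool.Agent.H15.Cyc.Kn := by
  by_contra hcon
  push Not at hcon
  have hbig : ∀ x ∈ Z, 2900000000 ≤ |x| := by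
    intro x hx
    by_contra h
    push Not at h
    obtain ⟨j, hj⟩ := Pool.Agent.H15.Cyc.reach x h
    exact hcon _ (hZ.closed hx j) hj
  obtain ⟨x1, hx1, k, hk⟩ := cycle_form hZ hbig
  have hb1 := hbig x1 hx1
  have hbR : (2900000000 : ℝ) ≤ |(x1 : ℝ)| := by exact_mod_cast hb1
  obtain ⟨L, hL1, hL2⟩ := sep_length Z.card k |(x1 : ℝ)| (Finset.card_pos.2 ⟨x1, hx1⟩) hbR hk
  have h1 : (words (Pool.Agent.H15.Asc.T 3 1) Z L).card = Z.card := by
    apply card_words (by norm_num) (by norm_num)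
    intro x hx
    have h2 := hosc x hx x1 hx1
    have h3 : 2 * (10 ^ 50 * |x1|) < 2 ^ L := by exact_mod_cast hL1
    omega
  have h2 := hw L
  rw [h1] at h2
  linarith

end Pool.Agent.H15.Cx
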