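import Mathlib
import Pool.Agent.H15.Cx.Words
import Pool.Agent.H15.Asc.Core

set_option autoImplicit false

/-!
Low word complexity forces a large oscillation.
-/

namespace Pool.Agent.H15.Cx

open Finset
open Pool.Agent.H15.Asc (T T_even T_odd par IsCycle Nu)

variable {q d : ℤ} {ν : ℝ → ℝ}

/-- the least element of a cycle is not too large -/
theorem min_le (hq3 : 3 ≤ q) (hq : q % 2 = 1) (hd : d % 2 = 1) (hν : Nu q ν) {Z : Finset ℤ}
    (hZ : IsCycle (T q d) Z) : ∃ y ∈ Z, |(y : ℝ)| * ν Z.card ≤ 10 * |(d : ℝ)| * Z.card := by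
  have hd1 : 1 ≤ |(d : ℝ)| := by
    have : 1 ≤ |d| := Int.one_le_abs (by omega)
    exact_mod_cast this
  have hcard1 : (1 : ℝ) ≤ Z.card := by exact_mod_cast Finset.card_pos.2 hZ.nonempty
  by_cases hsm : ∃ y ∈ Z, |(y : ℝ)| < 10 * |(d : ℝ)|
  · obtain ⟨y, hy, hyd⟩ := hsm
    refine ⟨y, hy, ?_⟩
    have h1 := hν.le_one Z.card hcard1
    have h2 := hν.pos Z.card hcard1
    have h3 := abs_nonneg (y : ℝ)
    calc |(y : ℝ)| * ν Z.card ≤ |(y : ℝ)| * 1 := mul_le_mul_of_nonneg_left h1 h3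
      _ ≤ 10 * |(d : ℝ)| * 1 := by linarith
      _ ≤ _ := mul_le_mul_of_nonneg_left hcard1 (by positivity)
  · push Not at hsm
    obtain ⟨m, n, k, l, hdat, hsum, -, ⟨x, hx, hnx⟩, -⟩ :=
      hZ.dat hq3 hq hd (N := 10) le_rfl hsm
    have h1 := hdat.n_le hν
    rw [hsum, hnx] at h1
    refine ⟨x, hx, h1.trans ?_⟩
    have : 0 ≤ |(d : ℝ)| * Z.card := by positivity
    linarith

/-- **the oscillation** -/
theorem osc_ge (hq3 : 3 ≤ q) (hq : q % 2 = 1) (hd : d % 2 = 1) (hν : Nu q ν) {Z : Finset ℤ}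
    (hZ : IsCycle (T q d) Z) {H : ℝ} (hH : ∀ x ∈ Z, ∀ y ∈ Z, |(x : ℝ)| ≤ H * |(y : ℝ)|) {L : ℕ}
    (hL : (words (T q d) Z L).card < Z.card) :
    (2 : ℝ) ^ L * ν Z.card ≤ 20 * |(d : ℝ)| * H * Z.card := by
  obtain ⟨y, hy, hy2⟩ := min_le hq3 hq hd hν hZ
  have hcard1 : (1 : ℝ) ≤ Z.card := by exact_mod_cast Finset.card_pos.2 hZ.nonempty
  have hex : ∃ x ∈ Z, (2 : ℤ) ^ L ≤ 2 * |x| := by
    by_contra hcon
    push Not at hcon
    have := card_words hq hd hcon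
    omega
  obtain ⟨x, hx, hxL⟩ := hex
  have hxR : (2 : ℝ) ^ L ≤ 2 * |(x : ℝ)| := by exact_mod_cast hxL
  have h1 := hH x hx y hy
  have h2 := hν.pos Z.card hcard1
  have hx0 : 0 < |(x : ℝ)| := by
    have : (0 : ℝ) < 2 ^ L := by positivity
    linarith
  have hH0 : 0 ≤ H := by
    by_contra hcon
    have : H * |(y : ℝ)| ≤ 0 := mul_nonpos_of_nonpos_of_nonneg (by linarith) (abs_nonneg _)
    linarith
  calc (2 : ℝ) ^ L * ν Z.card ≤ 2 * (H * |(y : ℝ)|) * ν Z.card :=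
        mul_le_mul_of_nonneg_right (by linarith) h2.le
    _ = 2 * H * (|(y : ℝ)| * ν Z.card) := by ring
    _ ≤ 2 * H * (10 * |(d : ℝ)| * Z.card) := mul_le_mul_of_nonneg_left hy2 (by positivity)
    _ = _ := by ring

/-- **finiteness**, from a bound for the number of elements -/
theorem fin_of_bdd (hq3 : 3 ≤ q) (hq : q % 2 = 1) (hd : d % 2 = 1) (hν : Nu q ν)
    (S : Set (Finset ℤ)) (hS : ∀ Z ∈ S, IsCycle (T q d) Z) (P : ℝ) (hP : ∀ Z ∈ S, (Z.card : ℝ) ≤ P) :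
    S.Finite := by
  refine (Pool.Agent.H15.Asc.finite_small (T q d) (10 * |(d : ℝ)| * P / ν (max P 1) + 1)).subset ?_
  intro Z hZS
  have hZ := hS Z hZS
  refine ⟨hZ, ?_⟩
  obtain ⟨y, hy, hy2⟩ := min_le hq3 hq hd hν hZ
  have hcard1 : (1 : ℝ) ≤ Z.card := by exact_mod_cast Finset.card_pos.2 hZ.nonempty
  have hcP := hP Z hZS
  refine ⟨y, hy, ?_⟩
  have h1 : 0 < ν (max P 1) := hν.pos _ (le_max_right _ _)
  have h2 : ν (max P 1) ≤ ν Z.card := hν.anti _ _ hcard1 (hcP.trans (le_max_left _ _))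
  have h3 : |(y : ℝ)| ≤ 10 * |(d : ℝ)| * P / ν (max P 1) := by
    rw [le_div_iff₀ h1]
    calc |(y : ℝ)| * ν (max P 1) ≤ |(y : ℝ)| * ν Z.card := mul_le_mul_of_nonneg_left h2 (abs_nonneg _)
      _ ≤ 10 * |(d : ℝ)| * Z.card := hy2
      _ ≤ _ := mul_le_mul_of_nonneg_left hcP (by positivity)
  linarith

end Pool.Agent.H15.Cx
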