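import Mathlib
import Pool.Agent.H15.Cx.Gen
import Pool.Agent.H15.Asc.Nu3
import Pool.Agent.H15.Asc.NuP

set_option autoImplicit false

/-!
Finiteness of the set of cycles of low complexity.
-/

namespace Pool.Agent.H15.Cx

open Finset
open Pool.Agent.H15.Asc (T T_even T_odd par IsCycle Nu nu3 nu3_Nu nuE nuE_Nu nuE_low log2_bd)

variable {q d : ℤ} {ν : ℝ → ℝ}

theorem exists_pow (G : ℝ) (hG : 1 ≤ G) : ∃ L : ℕ, G < 2 ^ L ∧ (L : ℝ) ≤ 1.5 * Real.log G + 1 := by
  have hl2 := log2_bd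
  have hg : 0 ≤ Real.log G := Real.log_nonneg hG
  refine ⟨⌊1.5 * Real.log G⌋₊ + 1, ?_, ?_⟩
  · have h1 : 1.5 * Real.log G < (⌊1.5 * Real.log G⌋₊ + 1 : ℕ) := by
      push_cast; exact Nat.lt_floor_add_one _
    have h2 : Real.log G < Real.log (2 ^ (⌊1.5 * Real.log G⌋₊ + 1)) := by
      rw [Real.log_pow]
      nlinarith [hl2.1]
    exact (Real.log_lt_log_iff (by linarith) (by positivity)).1 h2
  · push_cast
    have := Nat.floor_le (show 0 ≤ 1.5 * Real.log G by positivity)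
    linarith

theorem card_le (hq3 : 3 ≤ q) (hq : q % 2 = 1) (hd : d % 2 = 1) (hν : Nu q ν) {Z : Finset ℤ}
    (hZ : IsCycle (T q d) Z) {H : ℝ} (hH1 : 1 ≤ H)
    (hH : ∀ x ∈ Z, ∀ y ∈ Z, |(x : ℝ)| ≤ H * |(y : ℝ)|) {φ : ℕ → ℝ}
    (hφ : ∀ L, ((words (T q d) Z L).card : ℝ) ≤ φ L) :
    ∃ L : ℕ, (L : ℝ) ≤ 1.5 * (Real.log (20 * |(d : ℝ)|) + Real.log H + Real.log Z.card -
      Real.log (ν Z.card)) + 1 ∧ (Z.card : ℝ) ≤ φ L := by
  have hd1 : 1 ≤ |(d : ℝ)| := by
    have : 1 ≤ |d| := Int.one_le_abs (by omega)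
    exact_mod_cast this
  have hcard1 : (1 : ℝ) ≤ Z.card := by exact_mod_cast Finset.card_pos.2 hZ.nonempty
  have hν0 := hν.pos Z.card hcard1
  have hν1 := hν.le_one Z.card hcard1
  obtain ⟨L, hL1, hL2⟩ := exists_pow (20 * |(d : ℝ)| * H * Z.card / ν Z.card) (by
    rw [le_div_iff₀ hν0, one_mul]
    refine hν1.trans ?_
    have h1 : 1 ≤ 20 * |(d : ℝ)| := by linarith
    have h2 : 1 ≤ 20 * |(d : ℝ)| * H := one_le_mul_of_one_le_of_one_le h1 hH1
    exact one_le_mul_of_one_le_of_one_le h2 hcard1)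
  refine ⟨L, ?_, ?_⟩
  · rw [Real.log_div (by positivity) hν0.ne', Real.log_mul (by positivity) (by positivity),
      Real.log_mul (by positivity) (by positivity)] at hL2
    exact hL2
  · rcases Nat.lt_or_ge (words (T q d) Z L).card Z.card with h | h
    · exfalso
      have h1 := osc_ge hq3 hq hd hν hZ hH h
      rw [div_lt_iff₀ hν0] at hL1
      linarith
    · have h1 : (Z.card : ℝ) ≤ (words (T q d) Z L).card := by exact_mod_cast h
      exact h1.trans (hφ L)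

/-- multiplier `3`: a positive entropy is allowed -/
theorem fin3 (hd : d % 2 = 1) (A B : ℝ) (hA : 0 ≤ A) :
    {Z : Finset ℤ | IsCycle (T 3 d) Z ∧
      (∀ x ∈ Z, ∀ y ∈ Z, |(x : ℝ)| ≤ B * (Z.card : ℝ) ^ A * |(y : ℝ)|) ∧
      ∀ L : ℕ, ((words (T 3 d) Z L).card : ℝ) ≤ B * Real.exp (L / (4 * (A + 50)))}.Finite := by
  obtain ⟨b1, b2⟩ := log2_bd
  have hd1 : 1 ≤ |(d : ℝ)| := by
    have : 1 ≤ |d| := Int.one_le_abs (by omega)
    exact_mod_cast this
  set B' : ℝ := |B| + 1 with hB'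
  have hBB : B ≤ B' := by rw [hB']; linarith [le_abs_self B]
  have hB1 : 1 ≤ B' := by rw [hB']; linarith [abs_nonneg B]
  set K : ℝ := Real.log (20 * |(d : ℝ)|) + Real.log B' + 13 * Real.log 2 + 49 * Real.log 86 with hK
  have hK0 : 0 ≤ K := by
    have h1 : 0 ≤ Real.log (20 * |(d : ℝ)|) := Real.log_nonneg (by linarith)
    have h2 : 0 ≤ Real.log B' := Real.log_nonneg hB1
    have h3 : 0 ≤ Real.log 86 := Real.log_nonneg (by norm_num)
    rw [hK]; linarith
  refine fin_of_bdd (q := 3) (d := d) le_rfl (by norm_num) hd (by exact_mod_cast nu3_Nu) _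
    (fun Z hZ => hZ.1) (Real.exp (4 * (Real.log B' + K + 1))) ?_
  rintro Z ⟨hZ, hosc, hw⟩
  have hcard1 : (1 : ℝ) ≤ Z.card := by exact_mod_cast Finset.card_pos.2 hZ.nonempty
  have hcA : (1 : ℝ) ≤ (Z.card : ℝ) ^ A := Real.one_le_rpow hcard1 hA
  have hH1 : 1 ≤ B' * (Z.card : ℝ) ^ A := one_le_mul_of_one_le_of_one_le hB1 hcA
  obtain ⟨L, hL1, hL2⟩ := card_le (q := 3) (d := d) (ν := nu3) le_rfl (by norm_num) hd
    (by exact_mod_cast nu3_Nu) hZ hH1 (fun x hx y hy => by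
      refine (hosc x hx y hy).trans (mul_le_mul_of_nonneg_right ?_ (abs_nonneg _))
      exact mul_le_mul_of_nonneg_right hBB (by linarith))
    (φ := fun L => B' * Real.exp (L / (4 * (A + 50)))) (fun L => (hw L).trans
      (mul_le_mul_of_nonneg_right hBB (Real.exp_pos _).le))
  set p : ℝ := (Z.card : ℝ) with hp
  have hlp : 0 ≤ Real.log p := Real.log_nonneg hcard1
  have hν : Real.log (nu3 p) = -(13 * Real.log 2 + 49 * (Real.log 86 + Real.log p)) := by
    unfold nu3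
    rw [Real.log_div (by norm_num) (by positivity), Real.log_one, Real.log_mul (by positivity)
      (by positivity), Real.log_pow, Real.log_pow, Real.log_mul (by norm_num) (by positivity)]
    push_cast; ring
  have hp0 : 0 < p := by linarith
  have hlH : Real.log (B' * p ^ A) = Real.log B' + A * Real.log p := by
    rw [Real.log_mul (by positivity) (by positivity), Real.log_rpow (by positivity)]
  rw [hν, hlH] at hL1
  have hL3 : (L : ℝ) ≤ 1.5 * (K + (A + 50) * Real.log p) + 1 := by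
    rw [hK]; linarith
  have h1 := Real.log_le_log (by linarith) hL2
  rw [Real.log_mul (by positivity) (by positivity), Real.log_exp] at h1
  have h2 : (L : ℝ) / (4 * (A + 50)) ≤ (1.5 * (K + (A + 50) * Real.log p) + 1) / (4 * (A + 50)) :=
    div_le_div_of_nonneg_right hL3 (by positivity)
  have h3 : (1.5 * (K + (A + 50) * Real.log p) + 1) / (4 * (A + 50)) =
      (1.5 * K + 1) / (4 * (A + 50)) + 1.5 / 4 * Real.log p := by
    field_simp
    ring
  have h4 : (1.5 * K + 1) / (4 * (A + 50)) ≤ 1.5 * K + 1 := by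
    rw [div_le_iff₀ (by positivity)]
    nlinarith
  have h5 : Real.log p ≤ 4 * (Real.log B' + K + 1) := by linarith [Real.log_nonneg hB1]
  rwa [← Real.log_le_iff_le_exp (by linarith)]

/-- prime multipliers: entropy zero with rate `exp (c √L)` -/
theorem finP (q : ℕ) (hq : q.Prime) (hq2 : q ≠ 2) : ∃ c : ℝ, 0 < c ∧ ∀ d : ℤ, d % 2 = 1 →
    ∀ A B : ℝ, 0 ≤ A → {Z : Finset ℤ | IsCycle (T q d) Z ∧
      (∀ x ∈ Z, ∀ y ∈ Z, |(x : ℝ)| ≤ B * (Z.card : ℝ) ^ A * |(y : ℝ)|) ∧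
      ∀ L : ℕ, ((words (T q d) Z L).card : ℝ) ≤ B * Real.exp (c * Real.sqrt L)}.Finite := by
  obtain ⟨C, hC, hlow⟩ := nuE_low q hq hq2
  have hν := nuE_Nu hC hlow
  have hq3 : (3 : ℤ) ≤ (q : ℤ) := by
    have := hq.two_le
    omega
  have hqodd : (q : ℤ) % 2 = 1 := by
    rcases hq.eq_two_or_odd with h | h
    · exact absurd h hq2
    · omega
  have hsC : 0 < Real.sqrt C := Real.sqrt_pos.2 (by linarith)
  refine ⟨1 / (5 * Real.sqrt C), by positivity, fun d hd A B hA => ?_⟩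
  have hd1 : 1 ≤ |(d : ℝ)| := by
    have : 1 ≤ |d| := Int.one_le_abs (by omega)
    exact_mod_cast this
  set B' : ℝ := |B| + 1 with hB'
  have hBB : B ≤ B' := by rw [hB']; linarith [le_abs_self B]
  have hB1 : 1 ≤ B' := by rw [hB']; linarith [abs_nonneg B]
  set K : ℝ := 1.5 * (Real.log (20 * |(d : ℝ)|) + Real.log B') + 1 with hK
  have hlB : 0 ≤ Real.log B' := Real.log_nonneg hB1
  have hK1 : 1 ≤ K := by
    have h1 : 0 ≤ Real.log (20 * |(d : ℝ)|) := Real.log_nonneg (by linarith)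
    rw [hK]; linarith
  refine fin_of_bdd (q := q) (d := d) (ν := nuE C) hq3 hqodd hd (by exact_mod_cast hν) _
    (fun Z hZ => hZ.1) (Real.exp (2 * (Real.log B' + 1 + A + K))) ?_
  rintro Z ⟨hZ, hosc, hw⟩
  have hcard1 : (1 : ℝ) ≤ Z.card := by exact_mod_cast Finset.card_pos.2 hZ.nonempty
  have hcA : (1 : ℝ) ≤ (Z.card : ℝ) ^ A := Real.one_le_rpow hcard1 hA
  have hH1 : 1 ≤ B' * (Z.card : ℝ) ^ A := one_le_mul_of_one_le_of_one_le hB1 hcA
  obtain ⟨L, hL1, hL2⟩ := card_le (q := q) (d := d) (ν := nuE C) hq3 hqodd hd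
    (by exact_mod_cast hν) hZ hH1 (fun x hx y hy => by
      refine (hosc x hx y hy).trans (mul_le_mul_of_nonneg_right ?_ (abs_nonneg _))
      exact mul_le_mul_of_nonneg_right hBB (by linarith))
    (φ := fun L => B' * Real.exp (1 / (5 * Real.sqrt C) * Real.sqrt L)) (fun L => (hw L).trans
      (mul_le_mul_of_nonneg_right hBB (Real.exp_pos _).le))
  set p : ℝ := (Z.card : ℝ) with hp
  have hlp : 0 ≤ Real.log p := Real.log_nonneg hcard1
  have hνp : Real.log (nuE C p) = -(C * (1 + Real.log p) ^ 2) := by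
    unfold nuE
    rw [Real.log_exp]
  have hp0 : 0 < p := by linarith
  have hlH : Real.log (B' * p ^ A) = Real.log B' + A * Real.log p := by
    rw [Real.log_mul (by positivity) (by positivity), Real.log_rpow (by positivity)]
  rw [hνp, hlH] at hL1
  set ℓ := Real.log p with hℓ
  have hL3 : (L : ℝ) ≤ K + 1.5 * (A + 1) * ℓ + 1.5 * C * (1 + ℓ) ^ 2 := by
    rw [hK]; linarith
  have h1 := Real.log_le_log (by linarith) hL2
  rw [Real.log_mul (by positivity) (by positivity), Real.log_exp] at h1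
  -- `c √L ≤ (1 + ℓ) / 4 + (A + 1) / 4 + K`
  have h2 : 1 / (5 * Real.sqrt C) * Real.sqrt L ≤ (1 + ℓ) / 4 + (A + 1) / 4 + K := by
    have e : 1 / (5 * Real.sqrt C) * Real.sqrt L = Real.sqrt (L / (25 * C)) := by
      rw [Real.sqrt_div' _ (by positivity), Real.sqrt_mul (by norm_num),
        show (25 : ℝ) = 5 ^ 2 by norm_num, Real.sqrt_sq (by norm_num)]
      ring
    rw [e]
    apply Real.sqrt_le_iff.2
    refine ⟨by positivity, ?_⟩
    rw [div_le_iff₀ (by positivity)]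
    refine hL3.trans ?_
    have h3 : (0 : ℝ) ≤ (A + 1) * ℓ := by positivity
    have h4 : (1 + ℓ) ^ 2 / 16 + (1 + ℓ) / 2 * ((A + 1) / 4 + K) + ((A + 1) / 4 + K) ^ 2 =
      ((1 + ℓ) / 4 + (A + 1) / 4 + K) ^ 2 := by ring
    rw [← h4]
    have h5 : K ≤ ((A + 1) / 4 + K) ^ 2 := by nlinarith
    have h6 : (A + 1) * ℓ / 8 ≤ (1 + ℓ) / 2 * ((A + 1) / 4 + K) := by nlinarith
    have h7 : (0 : ℝ) ≤ (1 + ℓ) ^ 2 := by positivity
    nlinarith
  have h5 : ℓ ≤ 2 * (Real.log B' + 1 + A + K) := by linarith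
  rwa [← Real.log_le_iff_le_exp (by linarith)]

end Pool.Agent.H15.Cx
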