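import Mathlib
import Pool.Agent.H15.Cx.Words
import Pool.Agent.H15.Asc.Cycle
import Pool.Agent.H33.G.R_seed8.H319R2.Measure

set_option autoImplicit false

/-!
Cycles of the maps `3x+d` of low word complexity: bounds which are polynomial in `d`.
-/

namespace Pool.Agent.H15.Cx

open Finset
open Pool.Agent.H15.Asc (T T_even T_odd par IsCycle Orb FS fc od)

/-- a cycle without small elements gives a small linear form in two logarithms -/
theorem cyc_log {q d : ℤ} {Z : Finset ℤ} (hZ : IsCycle (T q d) Z) (hq3 : 3 ≤ q) (hq : q % 2 = 1)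
    (hd : d % 2 = 1) (hbig : ∀ x ∈ Z, 10 * |(d : ℝ)| ≤ |(x : ℝ)|) :
    ∃ k : ℕ, k ≤ Z.card ∧
      |(Z.card : ℝ) * Real.log 2 - k * Real.log q| ≤ ∑ x ∈ Z, |(d : ℝ)| / |(x : ℝ)| := by
  obtain ⟨x0, hx0⟩ := hZ.nonempty
  set a : ℕ → ℤ := fun i => (T q d)^[i] x0 with ha
  set p := Function.minimalPeriod (T q d) x0 with hp
  obtain ⟨r, hr1, hr2⟩ := hZ.com
  have hperr : Function.IsPeriodicPt (T q d) r x0 := hr2 x0 hx0
  have hp1 : 1 ≤ p := hperr.minimalPeriod_pos hr1
  have hpp : (T q d)^[p] x0 = x0 := Function.isPeriodicPt_minimalPeriod (T q d) x0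
  have hmem : ∀ i, a i ∈ Z := fun i => hZ.closed hx0 i
  have horb : Orb q d a p 10 :=
    { q3 := hq3
      qodd := hq
      dodd := hd
      step := fun i => Function.iterate_succ_apply' (T q d) i x0
      per := fun i => by
        change (T q d)^[i + p] x0 = (T q d)^[i] x0
        rw [Function.iterate_add_apply, hpp]
      pos := hp1
      N10 := le_rfl
      big := fun i => hbig _ (hmem i) }
  have h1 := horb.sum_log 0 p
  have hcard : Z.card = p := hZ.card_eq hx0
  have e0 : a (0 + p) = a 0 := horb.per 0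
  have hinj : Set.InjOn a ((range p : Finset ℕ) : Set ℕ) := by
    intro i hi j hj hij
    rw [mem_coe, mem_range] at hi hj
    exact (Function.iterate_eq_iterate_iff_of_lt_minimalPeriod hi hj).1 hij
  have himg : Z = (range p).image a := by
    ext y
    rw [mem_image]
    constructor
    · intro hy
      obtain ⟨j, rfl⟩ := hZ.gen hx0 hy
      refine ⟨j % p, mem_range.2 (Nat.mod_lt _ hp1), ?_⟩
      exact Function.iterate_mod_minimalPeriod_eq
    · rintro ⟨j, -, rfl⟩
      exact hmem j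
  have hod : ∀ k, od a k ≤ k := by
    intro k
    induction k with
    | zero => exact le_rfl
    | succ k ih =>
      have : od a (k + 1) = od a k + (a k % 2).toNat := rfl
      rcases par (a k) with h | h
      · rw [this, h]; simp; omega
      · rw [this, h]; simp; omega
  refine ⟨od a p, by rw [hcard]; exact hod p, ?_⟩
  rw [e0, sub_self, zero_add, zero_add] at h1
  have e1 : (od a 0 : ℝ) = 0 := by
    have : od a 0 = 0 := rfl
    rw [this]; simp
  have e2 : FS d a 0 = 0 := by unfold FS; simp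
  rw [e1, e2, sub_zero, sub_zero] at h1
  rw [hcard]
  refine h1.trans ?_
  rw [himg, Finset.sum_image hinj]
  unfold FS
  refine Finset.sum_le_sum fun i _ => ?_
  unfold fc
  split_ifs
  · exact le_rfl
  · positivity

theorem exists_len {X : ℝ} (hX : 1 ≤ X) : ∃ L : ℕ, 2 * X < 2 ^ L ∧ (2 : ℝ) ^ L ≤ 4 * X := by
  set n := ⌊2 * X⌋₊ with hn
  have h1 : (n : ℝ) ≤ 2 * X := Nat.floor_le (by linarith)
  have h2 : 2 * X < n + 1 := Nat.lt_floor_add_one _
  have hn0 : n ≠ 0 := by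
    intro h
    rw [h] at h2
    norm_num at h2
    linarith
  refine ⟨Nat.log 2 n + 1, ?_, ?_⟩
  · have h3 : n + 1 ≤ 2 ^ (Nat.log 2 n + 1) := Nat.lt_pow_succ_log_self (by norm_num) n
    have h4 : ((n + 1 : ℕ) : ℝ) ≤ ((2 ^ (Nat.log 2 n + 1) : ℕ) : ℝ) := by exact_mod_cast h3
    push_cast at h4
    linarith
  · have h3 : 2 ^ Nat.log 2 n ≤ n := Nat.pow_log_le_self 2 hn0
    have h4 : ((2 ^ Nat.log 2 n : ℕ) : ℝ) ≤ n := by exact_mod_cast h3
    push_cast at h4
    rw [pow_succ]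
    linarith

/-- the number of elements up to `X` -/
theorem count_le {q d : ℤ} (hq : q % 2 = 1) (hd : d % 2 = 1) {Z : Finset ℤ} {h B : ℝ} (h0 : 0 ≤ h)
    (hB : 0 ≤ B) (hw : ∀ L : ℕ, ((words (T q d) Z L).card : ℝ) ≤ B * 2 ^ (h * L)) {X : ℝ}
    (hX : 1 ≤ X) :
    (((Z.filter fun x : ℤ => |(x : ℝ)| ≤ X).card : ℕ) : ℝ) ≤ B * (4 * X) ^ h := by
  obtain ⟨L, hL1, hL2⟩ := exists_len hX
  have h1 : (Z.filter fun x : ℤ => |(x : ℝ)| ≤ X).card ≤ (words (T q d) Z L).card := by
    unfold words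
    have h2 : ((Z.filter fun x : ℤ => |(x : ℝ)| ≤ X).image (word (T q d) L)).card =
        (Z.filter fun x : ℤ => |(x : ℝ)| ≤ X).card := by
      apply Finset.card_image_of_injOn
      intro x hx y hy hxy
      rw [mem_coe, mem_filter] at hx hy
      have h1 := dvd_of_word hq hd L x y hxy
      by_contra hne
      have h2 : x - y ≠ 0 := sub_ne_zero.2 hne
      have h3 : (2 : ℤ) ^ L ≤ |x - y| := Int.le_of_dvd (abs_pos.2 h2) ((dvd_abs _ _).2 h1)
      have h3' : (2 : ℝ) ^ L ≤ |(x : ℝ) - y| := by exact_mod_cast h3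
      have h4 := abs_sub (x : ℝ) y
      linarith [hx.2, hy.2]
    rw [← h2]
    exact Finset.card_le_card (Finset.image_subset_image (Finset.filter_subset _ _))
  have h2 : (((Z.filter fun x : ℤ => |(x : ℝ)| ≤ X).card : ℕ) : ℝ) ≤
      ((words (T q d) Z L).card : ℝ) := by exact_mod_cast h1
  refine h2.trans ((hw L).trans (mul_le_mul_of_nonneg_left ?_ hB))
  rw [mul_comm h, Real.rpow_mul (by norm_num), Real.rpow_natCast]
  exact Real.rpow_le_rpow (by positivity) hL2 h0

/-- the sum of the reciprocals -/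
theorem recip_le {q d : ℤ} (hq : q % 2 = 1) (hd : d % 2 = 1) {Z : Finset ℤ} {h B : ℝ} (h0 : 0 ≤ h)
    (h1 : h < 1) (hB : 0 ≤ B) (hw : ∀ L : ℕ, ((words (T q d) Z L).card : ℝ) ≤ B * 2 ^ (h * L))
    {m : ℝ} (hm : 1 ≤ m) (hmin : ∀ x ∈ Z, m ≤ |(x : ℝ)|) :
    ∑ x ∈ Z, 1 / |(x : ℝ)| ≤ 2 * B * 4 ^ h / (1 - 2 ^ (h - 1)) * m ^ (h - 1) := by
  have hm0 : 0 < m := by linarith
  set r : ℝ := 2 ^ (h - 1) with hr
  have hr0 : 0 < r := by positivity
  have hr1 : r < 1 := Real.rpow_lt_one_of_one_lt_of_neg (by norm_num) (by linarith)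
  -- the largest scale
  obtain ⟨J, hJ⟩ : ∃ J : ℕ, ∀ x ∈ Z, |(x : ℝ)| ≤ 2 ^ J * m := by
    obtain ⟨J, hJ⟩ := pow_unbounded_of_one_lt (∑ x ∈ Z, |(x : ℝ)|) (one_lt_two)
    refine ⟨J, fun x hx => ?_⟩
    have h2 : |(x : ℝ)| ≤ ∑ x ∈ Z, |(x : ℝ)| :=
      Finset.single_le_sum (f := fun x : ℤ => |(x : ℝ)|) (fun _ _ => abs_nonneg _) hx
    have h3 : (2 : ℝ) ^ J * 1 ≤ 2 ^ J * m := mul_le_mul_of_nonneg_left hm (by positivity)
    linarith
  have hpt : ∀ x ∈ Z, 1 / |(x : ℝ)| ≤
      ∑ j ∈ range (J + 1), if |(x : ℝ)| ≤ 2 ^ j * m then 2 / (2 ^ j * m) else 0 := by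
    intro x hx
    have hx0 : 0 < |(x : ℝ)| := lt_of_lt_of_le hm0 (hmin x hx)
    have hex : ∃ j : ℕ, |(x : ℝ)| ≤ 2 ^ j * m := ⟨J, hJ x hx⟩
    classical
    set j := Nat.find hex with hj
    have hj1 : |(x : ℝ)| ≤ 2 ^ j * m := Nat.find_spec hex
    have hjJ : j ≤ J := Nat.find_min' hex (hJ x hx)
    have hj2 : (2 : ℝ) ^ j * m ≤ 2 * |(x : ℝ)| := by
      rcases Nat.eq_zero_or_pos j with h2 | h2
      · rw [h2, pow_zero, one_mul]
        have := hmin x hx
        linarith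
      · obtain ⟨i, hi⟩ : ∃ i, j = i + 1 := ⟨j - 1, by omega⟩
        have h3 := Nat.find_min hex (m := i) (by omega)
        push Not at h3
        rw [hi, pow_succ]
        linarith
    have h4 : 1 / |(x : ℝ)| ≤ if |(x : ℝ)| ≤ 2 ^ j * m then 2 / (2 ^ j * m) else 0 := by
      rw [if_pos hj1, div_le_div_iff₀ hx0 (by positivity)]
      linarith
    refine h4.trans ?_
    refine Finset.single_le_sum (f := fun j : ℕ => if |(x : ℝ)| ≤ 2 ^ j * m then 2 / (2 ^ j * m) else 0)
      (fun i _ => ?_) (mem_range.2 (by omega))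
    split_ifs
    · positivity
    · exact le_rfl
  refine (Finset.sum_le_sum hpt).trans ?_
  rw [Finset.sum_comm]
  have hj : ∀ j ∈ range (J + 1), ∑ x ∈ Z, (if |(x : ℝ)| ≤ 2 ^ j * m then 2 / (2 ^ j * m) else 0) ≤
      2 * B * 4 ^ h * m ^ (h - 1) * r ^ j := by
    intro j _
    rw [← Finset.sum_filter, Finset.sum_const, nsmul_eq_mul]
    have hX : (1 : ℝ) ≤ 2 ^ j * m := one_le_mul_of_one_le_of_one_le (one_le_pow₀ (by norm_num)) hm
    have h2 := count_le hq hd h0 hB hw hX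
    have hX0 : (0 : ℝ) < 2 ^ j * m := by linarith
    calc _ ≤ B * (4 * (2 ^ j * m)) ^ h * (2 / (2 ^ j * m)) :=
          mul_le_mul_of_nonneg_right h2 (by positivity)
      _ = 2 * B * 4 ^ h * ((2 ^ j * m) ^ h / (2 ^ j * m)) := by
          rw [Real.mul_rpow (by norm_num) hX0.le]; ring
      _ = 2 * B * 4 ^ h * (2 ^ j * m) ^ (h - 1) := by rw [Real.rpow_sub_one hX0.ne']
      _ = _ := by
          rw [Real.mul_rpow (by positivity) hm0.le, hr, ← Real.rpow_natCast, ← Real.rpow_natCast,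
            ← Real.rpow_mul (by norm_num), ← Real.rpow_mul (by norm_num), mul_comm (j : ℝ)]
          ring
  refine (Finset.sum_le_sum hj).trans ?_
  rw [← Finset.mul_sum]
  have h5 : ∑ j ∈ range (J + 1), r ^ j ≤ 1 / (1 - r) := by
    have h7 : (∑ j ∈ range (J + 1), r ^ j) * (1 - r) = 1 - r ^ (J + 1) := geom_sum_mul_neg r (J + 1)
    have h8 : 0 < r ^ (J + 1) := by positivity
    rw [le_div_iff₀ (by linarith), h7]
    linarith
  have h6 : 0 ≤ 2 * B * 4 ^ h * m ^ (h - 1) := by positivity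
  calc _ ≤ 2 * B * 4 ^ h * m ^ (h - 1) * (1 / (1 - r)) := mul_le_mul_of_nonneg_left h5 h6
    _ = _ := by ring

/-- **Cycles of low complexity.** -/
theorem unif (h A κ B : ℝ) (h0 : 0 ≤ h) (h1 : h < 1) (hA : 0 ≤ A) (hκ : 0 ≤ κ)
    (hη : h * (A + 13 * κ / (1 - h)) < 1) :
    ∃ C : ℝ, ∀ d : ℤ, d % 2 = 1 → ∀ Z : Finset ℤ, IsCycle (T 3 d) Z →
      (∀ x ∈ Z, ∀ y ∈ Z, |(x : ℝ)| ≤ B * (Z.card : ℝ) ^ A * |(y : ℝ)| ^ κ) →
      (∀ L : ℕ, ((words (T 3 d) Z L).card : ℝ) ≤ B * 2 ^ (h * L)) →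
      ∀ x ∈ Z, |(x : ℝ)| ≤ C * |(d : ℝ)| ^ (κ / ((1 - h) * (1 - h * (A + 13 * κ / (1 - h))))) := by
  obtain ⟨c, hc, hmeas⟩ := Pool.Agent.H319R2.measure
  set u : ℝ := 1 - h with hu
  have hu0 : 0 < u := by linarith
  set η : ℝ := h * (A + 13 * κ / u) with hηd
  set B' : ℝ := |B| + 1 with hB'
  have hBB : B ≤ B' := by rw [hB']; linarith [le_abs_self B]
  have hB1 : 1 ≤ B' := by rw [hB']; linarith [abs_nonneg B]
  have hr1 : (2 : ℝ) ^ (h - 1) < 1 := Real.rpow_lt_one_of_one_lt_of_neg (by norm_num) (by linarith)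
  set K : ℝ := 2 * B' * 4 ^ h / (1 - 2 ^ (h - 1)) with hK
  have hK0 : 0 < K := by
    rw [hK]
    have : 0 < 1 - (2 : ℝ) ^ (h - 1) := by linarith
    positivity
  set K3 : ℝ := max (Real.log 10) (Real.log (K * 2 ^ 13 / c)) with hK3
  set K1 : ℝ := Real.log B' + h * Real.log 4 with hK1
  set K2 : ℝ := Real.log B' with hK2
  set K' : ℝ := K2 + κ * K3 / u + (A + 13 * κ / u) * K1 with hK'
  refine ⟨Real.exp (K' / (1 - η)) , fun d hd Z hZ hosc hw x hx => ?_⟩
  have hd1 : 1 ≤ |(d : ℝ)| := by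
    have : 1 ≤ |d| := Int.one_le_abs (by omega)
    exact_mod_cast this
  have hE0 : 0 ≤ κ / (u * (1 - η)) := by
    apply div_nonneg hκ
    apply mul_nonneg hu0.le
    linarith
  by_cases hz : x = 0
  · rw [hz]
    simp only [Int.cast_zero, abs_zero]
    positivity
  have hne0 : ∀ y ∈ Z, y ≠ 0 := by
    intro y hy hy0
    obtain ⟨j, hj⟩ := hZ.gen hy hx
    apply hz
    rw [← hj, hy0]
    have : Function.IsFixedPt (T 3 d) 0 := by
      change T 3 d 0 = 0
      unfold T
      simp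
    exact this.iterate j
  have hge1 : ∀ y ∈ Z, 1 ≤ |(y : ℝ)| := by
    intro y hy
    have : 1 ≤ |y| := Int.one_le_abs (hne0 y hy)
    exact_mod_cast this
  have hcard1 : (1 : ℝ) ≤ Z.card := by exact_mod_cast Finset.card_pos.2 hZ.nonempty
  obtain ⟨x1, hx1, hmax⟩ := Finset.exists_max_image Z (fun x : ℤ => |(x : ℝ)|) hZ.nonempty
  obtain ⟨y1, hy1, hmin⟩ := Finset.exists_min_image Z (fun x : ℤ => |(x : ℝ)|) hZ.nonempty
  have hw' : ∀ L : ℕ, ((words (T 3 d) Z L).card : ℝ) ≤ B' * 2 ^ (h * L) := fun L =>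
    (hw L).trans (mul_le_mul_of_nonneg_right hBB (by positivity))
  set p : ℝ := (Z.card : ℝ) with hp
  set M : ℝ := |(x1 : ℝ)| with hM
  set m : ℝ := |(y1 : ℝ)| with hm
  have hM1 : 1 ≤ M := hge1 x1 hx1
  have hm1 : 1 ≤ m := hge1 y1 hy1
  -- (1)
  have e1 : Real.log p ≤ K1 + h * Real.log M := by
    have h2 := count_le (q := 3) (by norm_num) hd h0 (by linarith) hw' hM1
    rw [Finset.filter_true_of_mem hmax, ← hp] at h2
    have h3 := Real.log_le_log (by linarith) h2
    rw [Real.log_mul (by linarith) (by positivity), Real.log_rpow (by linarith),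
      Real.log_mul (by norm_num) (by linarith)] at h3
    rw [hK1]; linarith
  -- (2)
  have e2 : Real.log M ≤ K2 + A * Real.log p + κ * Real.log m := by
    have h2 : M ≤ B' * p ^ A * m ^ κ := (hosc x1 hx1 y1 hy1).trans
      (mul_le_mul_of_nonneg_right (mul_le_mul_of_nonneg_right hBB (by positivity)) (by positivity))
    have h3 := Real.log_le_log (by linarith) h2
    rw [Real.log_mul (by positivity) (by positivity), Real.log_mul (by positivity) (by positivity),
      Real.log_rpow (by linarith), Real.log_rpow (by linarith)] at h3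
    exact h3
  have hlp : 0 ≤ Real.log p := Real.log_nonneg hcard1
  have hlm : 0 ≤ Real.log m := Real.log_nonneg hm1
  have hlD : 0 ≤ Real.log |(d : ℝ)| := Real.log_nonneg hd1
  -- (3)
  have e3 : u * Real.log m ≤ K3 + Real.log |(d : ℝ)| + 13 * Real.log p := by
    by_cases hbig : ∀ x ∈ Z, 10 * |(d : ℝ)| ≤ |(x : ℝ)|
    · obtain ⟨k, hk, hlog⟩ := cyc_log (q := 3) hZ le_rfl (by norm_num) hd hbig
      have hs := recip_le (q := 3) (by norm_num) hd h0 h1 (by linarith) hw' hm1 hmin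
      have hs2 : ∑ x ∈ Z, |(d : ℝ)| / |(x : ℝ)| ≤ |(d : ℝ)| * (K * m ^ (h - 1)) := by
        have : ∑ x ∈ Z, |(d : ℝ)| / |(x : ℝ)| = |(d : ℝ)| * ∑ x ∈ Z, 1 / |(x : ℝ)| := by
          rw [Finset.mul_sum]
          exact Finset.sum_congr rfl fun x _ => by ring
        rw [this]
        exact mul_le_mul_of_nonneg_left hs (by linarith)
      have hme := hmeas (Z.card : ℤ) (-(k : ℤ)) (Or.inl (by
        have := Finset.card_pos.2 hZ.nonempty
        omega))
      have h4 : (((|(Z.card : ℤ)| + |(-(k : ℤ))| : ℤ)) : ℝ) ≤ 2 * p := by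
        rw [abs_neg, Nat.abs_cast, Nat.abs_cast]
        push_cast
        have : (k : ℝ) ≤ p := by rw [hp]; exact_mod_cast hk
        linarith
      have h5 : ((Z.card : ℤ) : ℝ) * Real.log 2 + ((-(k : ℤ) : ℤ) : ℝ) * Real.log 3 =
          (Z.card : ℝ) * Real.log 2 - k * Real.log ((3 : ℤ) : ℝ) := by
        push_cast; ring
      rw [h5] at hme
      have h6 : c ≤ (2 * p) ^ 13 * (|(d : ℝ)| * (K * m ^ (h - 1))) := by
        refine hme.trans ?_
        apply mul_le_mul _ (hlog.trans hs2) (abs_nonneg _) (by positivity)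
        exact pow_le_pow_left₀ (by positivity) h4 13
      have h7 := Real.log_le_log hc h6
      rw [Real.log_mul (by positivity) (by positivity), Real.log_mul (by positivity) (by positivity),
        Real.log_mul (by positivity) (by positivity), Real.log_pow, Real.log_rpow (by linarith),
        Real.log_mul (by norm_num) (by linarith)] at h7
      have h8 : Real.log (K * 2 ^ 13 / c) ≤ K3 := le_max_right _ _
      rw [Real.log_div (by positivity) hc.ne', Real.log_mul hK0.ne' (by positivity), Real.log_pow] at h8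
      push_cast at h7 h8
      rw [hu]
      linarith
    · push Not at hbig
      obtain ⟨y, hy, hyd⟩ := hbig
      have h2 : m ≤ 10 * |(d : ℝ)| := (hmin y hy).trans hyd.le
      have h3 := Real.log_le_log (by linarith) h2
      rw [Real.log_mul (by norm_num) (by linarith)] at h3
      have h4 : Real.log 10 ≤ K3 := le_max_left _ _
      have h5 : u * Real.log m ≤ 1 * Real.log m := mul_le_mul_of_nonneg_right (by linarith) hlm
      linarith
  have e4 : Real.log m ≤ (K3 + Real.log |(d : ℝ)| + 13 * Real.log p) / u := by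
    rw [le_div_iff₀ hu0]; linarith
  have hη1 : 0 < 1 - η := by linarith
  have e5 : (1 - η) * Real.log M ≤ K' + κ / u * Real.log |(d : ℝ)| := by
    have h2 : κ * Real.log m ≤ κ * ((K3 + Real.log |(d : ℝ)| + 13 * Real.log p) / u) :=
      mul_le_mul_of_nonneg_left e4 hκ
    have h3 : κ * ((K3 + Real.log |(d : ℝ)| + 13 * Real.log p) / u) =
        κ * K3 / u + κ / u * Real.log |(d : ℝ)| + 13 * κ / u * Real.log p := by ring
    have h4 : (A + 13 * κ / u) * Real.log p ≤ (A + 13 * κ / u) * (K1 + h * Real.log M) :=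
      mul_le_mul_of_nonneg_left e1 (by positivity)
    have h5 : (A + 13 * κ / u) * (K1 + h * Real.log M) =
        (A + 13 * κ / u) * K1 + η * Real.log M := by rw [hηd]; ring
    rw [hK']
    linarith
  have e6 : Real.log M ≤ K' / (1 - η) + κ / (u * (1 - η)) * Real.log |(d : ℝ)| := by
    have h2 : K' / (1 - η) + κ / (u * (1 - η)) * Real.log |(d : ℝ)| =
        (K' + κ / u * Real.log |(d : ℝ)|) / (1 - η) := by
      field_simp
    rw [h2, le_div_iff₀ hη1]
    linarith
  calc |(x : ℝ)| ≤ M := hmax x hx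
    _ = Real.exp (Real.log M) := (Real.exp_log (by linarith)).symm
    _ ≤ Real.exp (K' / (1 - η) + κ / (u * (1 - η)) * Real.log |(d : ℝ)|) := Real.exp_le_exp.2 e6
    _ = _ := by
      rw [Real.exp_add, Real.rpow_def_of_pos (by linarith), mul_comm (Real.log _)]

end Pool.Agent.H15.Cx
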